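import Pool.Agent.Helper94.AE.Arith

/-!
# Arithmetical solutions of the theorems of Auslander-Ellis and of Hindman

`X = (ℕ → Fin k)` with the map `T u = u ∘ t`, `t` computable.  For `t = Nat.succ` this is the shift;
with a pairing of `ℕ × ℕ` it is the shift of a sequence of rows.
-/

set_option autoImplicit false

namespace Pool.Agent.Results.MP_8bd85a_lc.ArithmeticalSolutions

/-- `n`-fold iterated limits of computable functions. -/
def Lim : ℕ → ∀ {α β : Type} [Primcodable α] [Primcodable β], (α → β) → Prop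
  | 0, _, _, _, _, f => Computable f
  | n + 1, α, β, _, _, f => ∃ g : α × ℕ → β, Lim n g ∧ ∀ a, ∃ s₀, ∀ s ≥ s₀, g (a, s) = f a

/-- Sets of natural numbers whose characteristic function is an `n`-fold iterated limit. -/
def LimSet (n : ℕ) (P : ℕ → Prop) : Prop := ∃ f : ℕ → Bool, Lim n f ∧ ∀ a, P a ↔ f a = true

variable {k : ℕ}

/-- The `n`-th iterate of the map `T u = u ∘ t`. -/
def sh (t : ℕ → ℕ) (n : ℕ) (u : ℕ → Fin k) : ℕ → Fin k := fun i => u (t^[n] i)

/-- Agreement on the first `m` coordinates. -/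
def Ag (m : ℕ) (u v : ℕ → Fin k) : Prop := ∀ i < m, u i = v i

/-- `y` is uniformly recurrent. -/
def UR (t : ℕ → ℕ) (y : ℕ → Fin k) : Prop := ∀ m, ∃ L, ∀ n, ∃ j < L, Ag m (sh t (n + j) y) y

/-- `x` and `y` are proximal. -/
def Prox (t : ℕ → ℕ) (x y : ℕ → Fin k) : Prop := ∀ m N, ∃ n ≥ N, Ag m (sh t n x) (sh t n y)

/-- The closure of the orbit of `x`. -/
def OC (t : ℕ → ℕ) (x : ℕ → Fin k) : Set (ℕ → Fin k) := {w | ∀ m, ∃ n, Ag m (sh t n x) w}

/-- Minimal sets: not empty, closed, invariant, and all orbits are dense. -/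
def MinimalSet (t : ℕ → ℕ) (M : Set (ℕ → Fin k)) : Prop :=
  M.Nonempty ∧ IsClosed M ∧ (∀ z ∈ M, sh t 1 z ∈ M) ∧
    ∀ z ∈ M, ∀ w ∈ M, ∀ m, ∃ n, Ag m (sh t n z) w

/-- `M` is a proximal extension of a rotation: there are a Hausdorff abelian topological group `A`,
`g` in `A` and a continuous map `π` from `M` to `A` with `π (T z) = π z + g` such that all points of
`M` with the same image are proximal. -/
def RotOn (t : ℕ → ℕ) (M : Set (ℕ → Fin k)) : Prop :=
  ∃ (A : Type) (_ : AddCommGroup A) (_ : TopologicalSpace A) (_ : IsTopologicalAddGroup A)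
    (_ : T2Space A) (g : A) (π : (ℕ → Fin k) → A), ContinuousOn π M ∧
    (∀ z ∈ M, π (sh t 1 z) = π z + g) ∧ ∀ z ∈ M, ∀ w ∈ M, π z = π w → Prox t z w

/-- `M` is weakly mixing: for nonempty open sets `A, B, C, D` of `M` there is `n` such that
`T^n A` meets `B` and `T^n C` meets `D`. -/
def WMOn (t : ℕ → ℕ) (M : Set (ℕ → Fin k)) : Prop :=
  ∀ a ∈ M, ∀ b ∈ M, ∀ c ∈ M, ∀ d ∈ M, ∀ m, ∃ n,
    (∃ w ∈ M, Ag m w a ∧ Ag m (sh t n w) b) ∧ ∃ w ∈ M, Ag m w c ∧ Ag m (sh t n w) d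

/-- Agreement on `J`. -/
def AgE (J : Set ℕ) (u v : ℕ → Fin k) : Prop := ∀ i ∈ J, u i = v i

/-- `x` and `y` are proximal on `J`. -/
def ProxOn (t : ℕ → ℕ) (J : Set ℕ) (x y : ℕ → Fin k) : Prop :=
  ∀ m N, ∃ n ≥ N, ∀ i < m, i ∈ J → sh t n x i = sh t n y i

/-- A tower of height `h`: computable sets `∅ = J 0, ..., J h = ℕ` of coordinates, invariant
under `t`, such that the restriction of `M` to `J (i + 1)` is a distal or a proximal extension of
the restriction to `J i`. -/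
def TowerOn (t : ℕ → ℕ) (M : Set (ℕ → Fin k)) (h : ℕ) (J : ℕ → Set ℕ) : Prop :=
  J 0 = ∅ ∧ J h = Set.univ ∧ (∀ i ≤ h, LimSet 0 (fun j => j ∈ J i)) ∧
    (∀ i ≤ h, ∀ j ∈ J i, t j ∈ J i) ∧
    ∀ i < h, (∀ z ∈ M, ∀ w ∈ M, AgE (J i) z w → ProxOn t (J (i + 1)) z w → AgE (J (i + 1)) z w) ∨
      ∀ z ∈ M, ∀ w ∈ M, AgE (J i) z w → ProxOn t (J (i + 1)) z w

/-- The minimal set `M` is of class `a`: it is weakly mixing and `a ≥ 2`, or a proximal extension
of a rotation of a Hausdorff abelian topological group and `a ≥ 4`, or it has a tower of height `h`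
with `a ≥ 2 + 2 h` (`h = 1` for distal sets). -/
def OfClass (t : ℕ → ℕ) (a : ℕ) (M : Set (ℕ → Fin k)) : Prop :=
  (2 ≤ a ∧ WMOn t M) ∨ (4 ≤ a ∧ RotOn t M) ∨ ∃ (h : ℕ) (J : ℕ → Set ℕ),
    2 + 2 * h ≤ a ∧ TowerOn t M h J

theorem lim_iff (n : ℕ) : ∀ {α β : Type} [Primcodable α] [Primcodable β] (f : α → β),
    Pool.Agent.Helper22.AEL.Lim n f ↔ Lim n f := by
  induction n with
  | zero => exact fun _ => Iff.rfl
  | succ n ih => exact fun f => exists_congr fun g => and_congr (ih g) Iff.rfl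

theorem limSet_iff (n : ℕ) (P : ℕ → Prop) : Pool.Agent.Helper22.AEL.LP n P ↔ LimSet n P :=
  exists_congr fun f => and_congr (lim_iff n f) Iff.rfl

theorem ofClass {t : ℕ → ℕ} {a : ℕ} {M : Set (ℕ → Fin k)} (h : OfClass t a M) :
    Pool.Agent.Helper94.AE.Arith.OfClass t a M := by
  rcases h with h | h | ⟨h, J, h1, h2, h3, h4, h5⟩
  · exact Or.inl h
  · exact Or.inr (Or.inl h)
  · exact Or.inr (Or.inr ⟨h, J, h1, h2, h3, fun i hi => (limSet_iff _ _).2 (h4 i hi), h5⟩)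

/-- **Main theorem.** Let `t` and the point `x` be computable.  There is a minimal set `M` in the
orbit closure of `x` such that, whenever `M` is of class `a`, the Auslander-Ellis theorem has a
solution for `x` which is an `a`-fold iterated limit of computable functions, and for the colouring
`c n = (T^n x) 0` Hindman's theorem has a solution `H` with such a characteristic function. -/
theorem result {t : ℕ → ℕ} (ht : Computable t) {x : ℕ → Fin k} (hx : Computable x) :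
    ∃ M : Set (ℕ → Fin k), MinimalSet t M ∧ M ⊆ OC t x ∧ ∀ a : ℕ, OfClass t a M →
      (∃ y : ℕ → Fin k, UR t y ∧ Prox t x y ∧ Lim a y) ∧
      ∀ c : ℕ → Fin k, (∀ n, c n = x (t^[n] 0)) →
        ∃ H : Set ℕ, H.Infinite ∧ LimSet a (fun n => n ∈ H) ∧ (∀ n ∈ H, 0 < n) ∧
          ∃ v, ∀ F : Finset ℕ, F.Nonempty → (∀ n ∈ F, n ∈ H) → c (∑ n ∈ F, n) = v := by
  obtain ⟨M, h1, h2, h3⟩ := Pool.Agent.Helper94.AE.Arith.main ht hx
  refine ⟨M, ⟨h1.1, h1.2, h1.3, h1.4⟩, h2, fun a ha => ?_⟩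
  obtain ⟨⟨y, h4, h5, h6⟩, h7⟩ := h3 a (ofClass ha)
  refine ⟨⟨y, h4, h5, (lim_iff a y).1 h6⟩, fun c hc => ?_⟩
  obtain ⟨H, h8, h9, h10, h11⟩ := h7 c hc
  exact ⟨H, h8, (limSet_iff a _).1 h9, h10, h11⟩

end Pool.Agent.Results.MP_8bd85a_lc.ArithmeticalSolutions
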