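import Pool.Agent.Helper32.HT.Diag
import Pool.Agent.Helper32.HT.Comp

/-! # A computable colouring without `Σ⁰₄` solution of Hindman's theorem -/

namespace Pool.Agent.Results.MP_8bd85a_lc.NoSigmaFourHindman

open Pool.Agent.Helper32.HT

/-- `H` is a `Σ⁰₄` set: `n ∈ H ↔ ∃ a, ∀ b, ∃ c, ∀ d, R (n, a, b, c, d)` for a computable
relation `R`. -/
def IsSigmaFour (H : Set ℕ) : Prop :=
  ∃ R : ℕ × ℕ × ℕ × ℕ × ℕ → Prop, ComputablePred R ∧
    ∀ n, n ∈ H ↔ ∃ a, ∀ b, ∃ c, ∀ d, R (n, a, b, c, d)

/-- `H` is a solution of Hindman's theorem for the colouring `col`: `H` is an infinite set of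
positive integers and all sums of finitely many (at least one) distinct elements of `H` have the
same colour. -/
def HindmanSolution (col : ℕ → ℕ) (H : Set ℕ) : Prop :=
  H.Infinite ∧ (∀ n ∈ H, 0 < n) ∧
    ∃ i, ∀ F : Finset ℕ, F.Nonempty → (F : Set ℕ) ⊆ H → col (∑ n ∈ F, n) = i

/-- **Main theorem.** There is a computable colouring of the natural numbers by `18` colours such
that no `Σ⁰₄` set is a solution of Hindman's theorem for it. -/
theorem result : ∃ col : ℕ → ℕ, Computable col ∧ (∀ n, col n < 18) ∧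
    ∀ H : Set ℕ, HindmanSolution col H → ¬ IsSigmaFour H := by
  refine ⟨colour, colour_computable, fun n => enc_lt _, ?_⟩
  rintro H ⟨hH, hpos, hom⟩ hR
  exact no_sigma_four H hH hpos hR hom

end Pool.Agent.Results.MP_8bd85a_lc.NoSigmaFourHindman
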