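import Pool.Agent.Helper94.HT.Extract

/-! # Solutions of Hindman's theorem for a computable three-colouring compute the second jump -/

namespace Pool.Agent.Results.MP_8bd85a_lc.SecondJumpHindman

open H94HT

/-- The characteristic function of a set of natural numbers, with values `0` and `1`. -/
noncomputable def charFun (S : Set ℕ) : ℕ → ℕ := by
  classical exact fun n => if n ∈ S then 1 else 0

/-- `S` is a `Σ⁰₂` set: `n ∈ S ↔ ∃ a, ∀ b, Q n a b` for a computable relation `Q`. -/
def IsSigmaTwo (S : Set ℕ) : Prop :=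
  ∃ Q : ℕ → ℕ → ℕ → Bool, Computable (fun p : ℕ × ℕ × ℕ => Q p.1 p.2.1 p.2.2) ∧
    ∀ n, n ∈ S ↔ ∃ a, ∀ b, Q n a b = true

/-- `H` is a solution of Hindman's theorem for the colouring `c`: all sums of finitely many
(at least one) distinct elements of the infinite set `H` have the same colour. -/
def HindmanSolution (c : ℕ → Fin 3) (H : Set ℕ) : Prop :=
  H.Infinite ∧ ∃ i, ∀ F : Finset ℕ, (F : Set ℕ) ⊆ H → F.Nonempty → c (∑ x ∈ F, x) = i

/-- `H` is an infinite apart set (for `x < y` in `H` some `N` has `x < 2 ^ N` and `2 ^ N ∣ y`) all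
of whose sums of at least one and at most four distinct elements have the same colour. -/
def ApartSolution (c : ℕ → Fin 3) (H : Set ℕ) : Prop :=
  H.Infinite ∧ (∀ x ∈ H, ∀ y ∈ H, x < y → ∃ N, x < 2 ^ N ∧ 2 ^ N ∣ y) ∧
    ∃ i, ∀ F : Finset ℕ, (F : Set ℕ) ⊆ H → F.Nonempty → F.card ≤ 4 → c (∑ x ∈ F, x) = i

lemma charFun_eq (S : Set ℕ) : charFun S = chi S := rfl

/-- **Main theorem.** For every `Σ⁰₂` set `S` there is a computable colouring of the natural
numbers by three colours such that `S` is Turing reducible to every solution of Hindman's theorem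
for it, and to every apart solution for sums of at most four elements. -/
theorem result (S : Set ℕ) (hS : IsSigmaTwo S) :
    ∃ c : ℕ → Fin 3, Computable c ∧
      (∀ H : Set ℕ, HindmanSolution c H →
        TuringReducible (fun n => Part.some (charFun S n)) (fun n => Part.some (charFun H n))) ∧
      (∀ H : Set ℕ, ApartSolution c H →
        TuringReducible (fun n => Part.some (charFun S n)) (fun n => Part.some (charFun H n))) := by
  obtain ⟨Q, hQ, hS⟩ := hS
  set R : ℕ → ℕ → ℕ → Bool := fun n b c => !Q n b c with hRdef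
  have hR : Computable (fun p : ℕ × ℕ × ℕ => R p.1 p.2.1 p.2.2) :=
    (Primrec.not.to_comp).comp hQ
  have hchi : ∀ n, chi S n = fv R (n + 1) % 2 := by
    intro n
    have h1 : n ∈ S ↔ fv R (n + 1) % 2 = 1 := by
      rw [fv_odd_iff, hS n]
      push Not
      constructor
      · rintro ⟨a, ha⟩
        exact ⟨a, fun b => by simp [hRdef, ha b]⟩
      · rintro ⟨a, ha⟩
        exact ⟨a, fun b => by simpa [hRdef] using ha b⟩
    unfold chi
    by_cases h : n ∈ S
    · rw [if_pos h, h1.1 h]
    · rw [if_neg h]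
      have : ¬ fv R (n + 1) % 2 = 1 := fun h2 => h (h1.2 h2)
      omega
  refine ⟨col R, comp_col hR, ?_, ?_⟩
  · rintro H ⟨hH, i, hi⟩
    exact RecursiveIn.iff_nat.2 (reduce_fs hR hH hi hchi)
  · rintro H ⟨hH, ha, i, hi⟩
    exact RecursiveIn.iff_nat.2 (reduce_apart hR hH ha hi hchi)

end Pool.Agent.Results.MP_8bd85a_lc.SecondJumpHindman
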