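import Mathlib.Topology.MetricSpace.Basic
import Mathlib.Topology.UniformSpace.HeineCantor
import Mathlib.Topology.Instances.Nat
import Pool.Agent.Helper94.AE.Four

/-! # Solutions of the Auslander-Ellis theorem separate all disjoint `Σ⁰₄` sets -/

namespace Pool.Agent.Results.MP_8bd85a_lc.SigmaFourSeparation

/-- Points of the phase space `(Fin 3)^(ℕ × ℕ)`: row `r`, column `c`. -/
abbrev Pt : Type := ℕ → ℕ → Fin 3

/-- The shift of all rows. -/
def shift (u : Pt) : Pt := fun r c => u r (c + 1)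

/-- `y` is uniformly recurrent for the map `T`, with respect to the metric `d`. -/
def UniformlyRecurrent {X : Type} (d : MetricSpace X) (T : X → X) (y : X) : Prop :=
  ∀ ε > 0, ∃ m : ℕ, ∀ n : ℕ, ∃ k < m, d.dist (T^[n + k] y) y < ε

/-- `x` and `y` are proximal for the map `T`, with respect to the metric `d`. -/
def Proximal {X : Type} (d : MetricSpace X) (T : X → X) (x y : X) : Prop :=
  ∀ ε > 0, ∀ N : ℕ, ∃ n, N ≤ n ∧ d.dist (T^[n] x) (T^[n] y) < ε

/-- The metric `d` induces the product topology (of the discrete topology on `Fin 3`). -/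
def Compatible (d : MetricSpace Pt) : Prop :=
  d.toUniformSpace.toTopologicalSpace = (inferInstance : TopologicalSpace Pt)

/-- `y` is a solution of the Auslander-Ellis theorem for the point `x`: `y` is uniformly
recurrent and proximal to `x`, for some metric inducing the product topology. -/
def Solution (x y : Pt) : Prop :=
  ∃ d : MetricSpace Pt, Compatible d ∧ UniformlyRecurrent d shift y ∧ Proximal d shift x y

/-- `S` is a `Σ⁰₄` set: `n ∈ S ↔ ∃ a, ∀ b, ∃ c, ∀ e, R (n, a, b, c, e)` for a computable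
relation `R`. -/
def IsSigmaFour (S : Set ℕ) : Prop :=
  ∃ R : ℕ × ℕ × ℕ × ℕ × ℕ → Prop, ComputablePred R ∧
    ∀ n, n ∈ S ↔ ∃ a, ∀ b, ∃ c, ∀ e, R (n, a, b, c, e)

/-- **Main theorem.** There is a computable point `x` of the shift on `(Fin 3)^(ℕ × ℕ)` such
that every solution of the Auslander-Ellis theorem for `x` separates all pairs of disjoint
`Σ⁰₄` sets, and for every solution `y` the set of the `r` with `y r 0 = 1` is not `Δ⁰₄`. -/
theorem result : ∃ x : Pt, Computable (fun p : ℕ × ℕ => x p.1 p.2) ∧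
    (∀ A B : Set ℕ, IsSigmaFour A → IsSigmaFour B → Disjoint A B →
      ∃ g : ℕ → ℕ, Computable g ∧ ∀ y : Pt, Solution x y →
        ∀ n, (n ∈ A → y (g n) 0 = 1) ∧ (n ∈ B → y (g n) 0 = 0)) ∧
    ∀ y : Pt, Solution x y → ¬ (IsSigmaFour {r | y r 0 = 1} ∧ IsSigmaFour {r | y r 0 ≠ 1}) :=
  Pool.Agent.Helper94.AE.Four.main

end Pool.Agent.Results.MP_8bd85a_lc.SigmaFourSeparation
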